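import Pool.Agent.P.MP_07c576_gt.Ql.Glob

/-! Weighted centres of finite families of points in a G-space whose small balls have connected
intersections. -/

set_option linter.unusedSectionVars false

namespace Pool.Agent.P.MP_07c576_gt.Bn

open Set Metric Topology Filter Pool.Agent.P.MP_07c576_gt.Ql

variable {X : Type} [MetricSpace X] [ProperSpace X]

/-- `y` minimises the largest of the numbers `dist i y - t i` over `i` in `J`. -/
def Mn (J : Finset X) (t : X → ℝ) (y : X) : Prop :=
  ∀ z, ∀ i ∈ J, ∃ j ∈ J, dist i y - t i ≤ dist j z - t j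

open Classical in
/-- A minimiser, if there is one. -/
noncomputable def cen (o : X) (J : Finset X) (t : X → ℝ) : X :=
  if h : ∃ y, Mn J t y then h.choose else o

/-- The local hypotheses. -/
structure Hyp (o : X) (r : ℝ) : Prop where
  loc : Loc o (10 * r)
  conn : ∀ J : Finset X, (∀ i ∈ J, dist i o ≤ 3 * r) → ∀ y y' : X, dist y o ≤ 4 * r →
    dist y' o ≤ 4 * r → IsPreconnected {w | ∀ i ∈ J, dist i w ≤ max (dist i y) (dist i y')}

/-- A nonempty finite set of centres near `o`. -/
def Fam (o : X) (r : ℝ) (J : Finset X) : Prop := J.Nonempty ∧ ∀ i ∈ J, dist i o ≤ 2 * r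

theorem Mn.congr {J : Finset X} {t t' : X → ℝ} {y : X} {c : ℝ} (h : Mn J t y)
    (e : ∀ i ∈ J, t' i = t i + c) : Mn J t' y := fun z i hi => by
  obtain ⟨j, hj, h⟩ := h z i hi
  exact ⟨j, hj, by rw [e i hi, e j hj]; linarith⟩

theorem isClosed_mn (J : Finset X) : IsClosed {w : (X → ℝ) × X | Mn J w.1 w.2} := by
  have : {w : (X → ℝ) × X | Mn J w.1 w.2} =
      ⋂ z, ⋂ i ∈ J, ⋃ j ∈ J, {w : (X → ℝ) × X | dist i w.2 - w.1 i ≤ dist j z - w.1 j} := by
    ext w; simp [Mn]
  rw [this]
  exact isClosed_iInter fun z => isClosed_biInter fun i _ => isClosed_biUnion_finset fun j _ =>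
    isClosed_le (by fun_prop) (by fun_prop)

variable {o : X} {r : ℝ} {J : Finset X} {t : X → ℝ}

theorem Fam.sub (hJ : Fam o r J) {K : Finset X} (h : K ⊆ J) (hK : K.Nonempty) : Fam o r K :=
  ⟨hK, fun i hi => hJ.2 i (h hi)⟩

theorem Fam.mem (hJ : Fam o r J) {y : X} (h : Mn J t y) : dist y o ≤ 4 * r := by
  obtain ⟨i, hi, hm⟩ := J.exists_max_image (fun i => dist i o - t i) hJ.1
  obtain ⟨j, hj, h⟩ := h o i hi
  have := hm j hj
  linarith [hJ.2 i hi, dist_triangle_left y o i]

theorem Fam.exists_mn (hJ : Fam o r J) (t : X → ℝ) : ∃ y, Mn J t y := by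
  obtain ⟨i0, hi0⟩ := hJ.1
  have hr : 0 ≤ r := by linarith [hJ.2 i0 hi0, dist_nonneg (x := i0) (y := o)]
  have hc : Continuous fun y : X => J.sup' hJ.1 fun i => dist i y - t i :=
    Continuous.finset_sup'_apply hJ.1 fun i _ => by fun_prop
  have ho : o ∈ closedBall o (4 * r) := mem_closedBall_self (by linarith)
  obtain ⟨y, -, hy⟩ := (isCompact_closedBall o (4 * r)).exists_isMinOn ⟨o, ho⟩ hc.continuousOn
  refine ⟨y, fun z i hi => ?_⟩
  have h1 : dist i y - t i ≤ J.sup' hJ.1 fun i => dist i y - t i :=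
    Finset.le_sup' (fun i => dist i y - t i) hi
  by_cases hz : z ∈ closedBall o (4 * r)
  · exact (Finset.le_sup'_iff hJ.1).1 (h1.trans (hy hz))
  · obtain ⟨j, hj, h⟩ := (Finset.le_sup'_iff hJ.1).1 (h1.trans (hy ho))
    rw [mem_closedBall, not_le] at hz
    exact ⟨j, hj, by linarith [hJ.2 j hj, dist_triangle_left z o j]⟩

theorem Fam.cen_spec (hJ : Fam o r J) (t : X → ℝ) : Mn J t (cen o J t) := by
  rw [cen, dif_pos (hJ.exists_mn t)]; exact (hJ.exists_mn t).choose_spec

namespace Hyp

variable (H : Hyp o r)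
include H

theorem pos : 0 < r := by linarith [H.loc.pos]

theorem between (hJ : ∀ i ∈ J, dist i o ≤ 3 * r) {y y' : X} (hy : dist y o ≤ 4 * r)
    (hy' : dist y' o ≤ 4 * r) {s : ℝ} (s0 : 0 ≤ s) (s1 : s ≤ dist y y') :
    ∃ w, dist y w = s ∧ ∀ i ∈ J, dist i w ≤ max (dist i y) (dist i y') := by
  obtain ⟨w, hw, e⟩ := (H.conn J hJ y y' hy hy').intermediate_value (a := y) (b := y')
    (fun i _ => le_max_left _ _) (fun i _ => le_max_right _ _) (f := fun w => dist y w)
    (by fun_prop) (show s ∈ Icc (dist y y) (dist y y') from ⟨by rwa [dist_self], s1⟩)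
  exact ⟨w, e, hw⟩

theorem unique (hJ : Fam o r J) {y y' : X} (h : Mn J t y) (h' : Mn J t y') : y = y' := by
  classical
  by_contra hne
  have hr := H.pos
  have d0 : 0 < dist y y' := dist_pos.2 hne
  have m := hJ.mem h
  have m' := hJ.mem h'
  obtain ⟨k, hk, hm⟩ := J.exists_max_image (fun i => dist i y - t i) hJ.1
  set K := {w | dist y w = dist y y' / 2 ∧ ∀ i ∈ J, dist i w ≤ max (dist i y) (dist i y')} with hK
  have cK : IsCompact K := by
    refine (isCompact_closedBall y (dist y y' / 2)).of_isClosed_subset ?_ fun w hw => ?_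
    · refine (isClosed_eq (by fun_prop) continuous_const).inter ?_
      have : {w | ∀ i ∈ J, dist i w ≤ max (dist i y) (dist i y')} =
          ⋂ i ∈ J, {w | dist i w ≤ max (dist i y) (dist i y')} := by ext w; simp only [mem_ofPred_eq, mem_iInter]
      change IsClosed {w | ∀ i ∈ J, dist i w ≤ max (dist i y) (dist i y')}
      rw [this]
      exact isClosed_biInter fun i _ => isClosed_le (by fun_prop) continuous_const
    · rw [mem_closedBall, dist_comm]; exact hw.1.le
  have cov : K ⊆ ⋃ c ∈ closedBall o (3 * r), {w | max (dist c y) (dist c y') < dist c w} := by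
    intro w hw
    obtain ⟨j, hj, h1⟩ := h w k hk
    obtain ⟨l, hl, h2⟩ := h' y j hj
    have h3 := hm l hl
    have h4 := hm j hj
    have h5 : dist j w = max (dist j y) (dist j y') :=
      le_antisymm (hw.2 j hj) (max_le (by linarith) (by linarith))
    have h6 := hJ.2 j hj
    have h7 : dist j w ≤ 6 * r := h5.le.trans (max_le (by linarith [dist_triangle_right j y o])
      (by linarith [dist_triangle_right j y' o]))
    have h8 : w ≠ j := by
      rintro rfl
      rw [dist_self] at h5
      linarith [dist_triangle_left y y' w, le_max_left (dist w y) (dist w y'),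
        le_max_right (dist w y) (dist w y')]
    obtain ⟨c, c1, c2⟩ := H.loc.long (x := w) (y := j)
      (mem_ball.2 (by linarith [dist_triangle_left w o j])) (mem_ball.2 (by linarith)) h8
      (t := r) hr.le (by linarith)
    have hc : c ≠ j := by rintro rfl; rw [dist_self] at c1; linarith
    have key : ∀ v, v ≠ w → dist j v ≤ dist j w → dist c v < dist c w := fun v hv hv' => by
      by_contra hlt
      rw [not_lt] at hlt
      have e1 : dist c j + dist j w = dist c w := by
        rw [dist_comm c j, dist_comm j w, dist_comm c w]; linarith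
      have e2 := dist_triangle c j v
      exact hv (H.loc.uniq c j v w hc (by linarith) e1 (by linarith))
    refine mem_iUnion₂.2 ⟨c, mem_closedBall.2 (by linarith [dist_triangle_left c o j]),
      max_lt (key y ?_ (h5 ▸ le_max_left _ _)) (key y' ?_ (h5 ▸ le_max_right _ _))⟩
    · rintro rfl; have := hw.1; rw [dist_self] at this; linarith
    · rintro rfl; have := hw.1; linarith
  obtain ⟨T, hT, fT, cT⟩ := cK.elim_finite_subcover_image
    (fun c _ => isOpen_lt continuous_const (by fun_prop)) cov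
  obtain ⟨w, w1, w2⟩ := H.between (J := J ∪ fT.toFinset) (fun i hi => by
    rcases Finset.mem_union.1 hi with hi | hi
    · linarith [hJ.2 i hi]
    · exact hT (fT.mem_toFinset.1 hi)) m m' (s := dist y y' / 2) (by linarith) (by linarith)
  obtain ⟨c, hc, hw⟩ := mem_iUnion₂.1 (cT ⟨w1, fun i hi => w2 i (Finset.mem_union_left _ hi)⟩)
  exact absurd (w2 c (Finset.mem_union_right _ (fT.mem_toFinset.2 hc))) (not_le.2 hw)

theorem cen_eq (hJ : Fam o r J) {y : X} (h : Mn J t y) : cen o J t = y :=
  H.unique hJ (hJ.cen_spec t) h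

theorem cen_congr (hJ : Fam o r J) {t' : X → ℝ} {c : ℝ} (e : ∀ i ∈ J, t' i = t i + c) :
    cen o J t' = cen o J t := H.cen_eq hJ ((hJ.cen_spec t).congr e)

theorem continuous_cen (hJ : Fam o r J) : Continuous (cen o J) :=
  continuousOn_univ.1 (continuousOn_of_closed (isCompact_closedBall o (4 * r)) (isClosed_mn J)
    (fun t _ => ⟨hJ.mem (hJ.cen_spec t), hJ.cen_spec t⟩) fun _ _ _ hx => (H.cen_eq hJ hx).symm)

end Hyp

open Classical in
/-- The weights for which no centre can be dropped. -/
def W (o : X) (J : Finset X) : Set (X → ℝ) :=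
  {t | ∀ j ∈ J, (J.erase j).Nonempty → cen o (J.erase j) t ≠ cen o J t}

namespace Hyp

variable (H : Hyp o r)
include H

theorem isOpen_W (hJ : Fam o r J) : IsOpen (W o J) := by
  classical
  have : W o J = ⋂ j ∈ J, ⋂ _ : (J.erase j).Nonempty, {t | cen o (J.erase j) t ≠ cen o J t} := by
    ext t; simp only [W, mem_ofPred_eq, mem_iInter]
  rw [this]
  exact isOpen_biInter_finset fun j _ => isOpen_iInter_of_finite fun h =>
    isOpen_ne_fun (H.continuous_cen (hJ.sub (J.erase_subset j) h)) (H.continuous_cen hJ)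

theorem W_congr (hJ : Fam o r J) {t' : X → ℝ} {c : ℝ} (e : ∀ i ∈ J, t' i = t i + c)
    (h : t ∈ W o J) : t' ∈ W o J := fun j hj hn => by
  classical
  rw [H.cen_congr hJ e, H.cen_congr (hJ.sub (J.erase_subset j) hn) fun i hi =>
    e i (J.erase_subset j hi)]
  exact h j hj hn

theorem active (hJ : Fam o r J) (h : t ∈ W o J) :
    ∃ c, ∀ j ∈ J, dist j (cen o J t) = t j + c := by
  classical
  set y := cen o J t with hy
  have my : Mn J t y := hJ.cen_spec t
  obtain ⟨k, hk, hm⟩ := J.exists_max_image (fun i => dist i y - t i) hJ.1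
  refine ⟨dist k y - t k, fun j hj => ?_⟩
  by_contra hne
  have lt : dist j y - t j < dist k y - t k :=
    lt_of_le_of_ne (hm j hj) fun e => hne (by linarith)
  have hn : (J.erase j).Nonempty := ⟨k, Finset.mem_erase.2 ⟨by rintro rfl; exact lt_irrefl _ lt, hk⟩⟩
  have hJ' := hJ.sub (J.erase_subset j) hn
  have my' := hJ'.cen_spec t
  have d0 : 0 < dist y (cen o (J.erase j) t) := dist_pos.2 (h j hj hn).symm
  have s0 : 0 < min (dist y (cen o (J.erase j) t)) (dist k y - t k - (dist j y - t j)) :=
    lt_min d0 (by linarith)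
  obtain ⟨w, w1, w2⟩ := H.between (J := J.erase j) (fun i hi => by linarith [hJ'.2 i hi, H.pos])
    (hJ.mem my) (hJ'.mem my') s0.le (min_le_left _ _)
  have mw : Mn J t w := fun z i hi => by
    obtain ⟨l, hl, h1⟩ := my z k hk
    refine ⟨l, hl, le_trans ?_ h1⟩
    by_cases e : i = j
    · subst e
      linarith [dist_triangle i y w,
        min_le_right (dist y (cen o (J.erase i) t)) (dist k y - t k - (dist i y - t i))]
    · have hi' := Finset.mem_erase.2 ⟨e, hi⟩
      obtain ⟨q, hq, h2⟩ := my' y i hi'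
      have h3 := hm q (J.erase_subset j hq)
      have h4 := hm i hi
      have := (w2 i hi').trans (max_le (c := t i + (dist k y - t k)) (by linarith) (by linarith))
      linarith
  rw [← H.unique hJ my mw, dist_self] at w1
  linarith

theorem minimal (hJ : Fam o r J) (t : X → ℝ) : ∃ K ⊆ J, K.Nonempty ∧
    (fun i => dist i (cen o J t)) ∈ W o K ∧ cen o K (fun i => dist i (cen o J t)) = cen o J t := by
  classical
  obtain ⟨K, hK, hm⟩ := (J.powerset.filter fun K => K.Nonempty ∧ cen o K t = cen o J t).exists_min_image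
    Finset.card ⟨J, by simp [hJ.1]⟩
  obtain ⟨k1, k2, k3⟩ := Finset.mem_filter.1 hK
  rw [Finset.mem_powerset] at k1
  have hF := hJ.sub k1 k2
  have hW : t ∈ W o K := fun j hj hn e => by
    have := hm (K.erase j) (Finset.mem_filter.2
      ⟨Finset.mem_powerset.2 ((K.erase_subset j).trans k1), hn, by convert e.trans k3⟩)
    exact absurd (Finset.card_erase_lt_of_mem hj) (not_lt.2 this)
  obtain ⟨c, hc⟩ := H.active hF hW
  rw [k3] at hc
  exact ⟨K, k1, k2, H.W_congr hF hc hW, (H.cen_congr hF hc).trans k3⟩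

end Hyp

end Pool.Agent.P.MP_07c576_gt.Bn
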