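import Pool.Agent.P.MP_07c576_gt.Bn.Cen
import Pool.Agent.P.MP_3c7b76_co.Kak

/-! The weighted centres of a fine net fill a ball, and one of the strata gives a chart. -/

set_option linter.unusedSectionVars false

namespace Pool.Agent.P.MP_07c576_gt.Bn

open Set Metric Topology Filter Pool.Agent.P.MP_07c576_gt.Ql

variable {X : Type} [MetricSpace X] [ProperSpace X] {o : X} {r : ℝ} {J : Finset X}

open Classical in
/-- Extension by zero. -/
noncomputable def ex (J : Finset X) (u : J → ℝ) (x : X) : ℝ := if h : x ∈ J then u ⟨x, h⟩ else 0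

theorem continuous_ex (J : Finset X) : Continuous (ex J) := continuous_pi fun x => by
  unfold ex
  split_ifs <;> fun_prop

theorem ex_mem (u : J → ℝ) {x : X} (h : x ∈ J) : ex J u x = u ⟨x, h⟩ := dif_pos h

theorem ex_not (u : J → ℝ) {x : X} (h : x ∉ J) : ex J u x = 0 := dif_neg h

namespace Hyp

variable (H : Hyp o r)
include H

theorem net {η : ℝ} (hη : 0 < η) : ∃ A : Finset X, Fam o r A ∧ o ∈ A ∧
    ∀ x, dist x o ≤ 2 * r → dist (cen o A fun i => dist i x) x ≤ 2 * η := by
  classical
  obtain ⟨T, hT, fT, cT⟩ := finite_cover_balls_of_compact (isCompact_closedBall o (2 * r)) hη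
  have hA : Fam o r (insert o fT.toFinset) := ⟨⟨o, Finset.mem_insert_self _ _⟩, fun i hi => by
    rcases Finset.mem_insert.1 hi with rfl | hi
    · rw [dist_self]; linarith [H.pos]
    · exact hT (fT.mem_toFinset.1 hi)⟩
  refine ⟨_, hA, Finset.mem_insert_self _ _, fun x hx => ?_⟩
  obtain ⟨i, hi, h⟩ := mem_iUnion₂.1 (cT (mem_closedBall.2 hx))
  obtain ⟨j, -, h'⟩ := hA.cen_spec (fun i => dist i x) x i
    (Finset.mem_insert_of_mem (fT.mem_toFinset.2 hi))
  rw [mem_ball, dist_comm] at h
  linarith [dist_triangle_left (cen o (insert o fT.toFinset) fun i => dist i x) x i]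

theorem fix {ψ : X → X} (hψ : ContinuousOn ψ (closedBall o (2 * r)))
    (hm : ∀ x ∈ closedBall o (2 * r), dist (ψ x) o ≤ r) : ∃ x ∈ closedBall o (2 * r), ψ x = x := by
  have hr := H.pos
  obtain ⟨x, hx, hmin⟩ := (isCompact_closedBall o (2 * r)).exists_isMinOn
    ⟨o, mem_closedBall_self (by linarith)⟩ (f := fun x => dist x (ψ x))
    (continuous_dist.comp_continuousOn (continuousOn_id.prodMk hψ))
  refine ⟨x, hx, (dist_le_zero.1 (le_of_forall_pos_le_add fun ε hε => ?_)).symm⟩
  obtain ⟨A, hA, ho, hn⟩ := H.net (η := ε / 2) (by linarith)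
  have : Nonempty A := ⟨⟨o, ho⟩⟩
  set y : (A → ℝ) → X := fun u =>
    cen o A fun i => dist i o + r * max (-1) (min 1 (ex A u i)) with hy
  have cy : Continuous y := (H.continuous_cen hA).comp (continuous_pi fun i => by
    have := (continuous_apply i).comp (continuous_ex A)
    exact continuous_const.add (continuous_const.mul (continuous_const.max
      (continuous_const.min this))))
  have my : ∀ u, y u ∈ closedBall o (2 * r) := fun u => by
    obtain ⟨j, -, h⟩ := hA.cen_spec (fun i => dist i o + r * max (-1) (min 1 (ex A u i))) o o ho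
    have h1 : max (-1) (min 1 (ex A u o)) ≤ 1 := max_le (by norm_num) (min_le_left _ _)
    have h2 : -1 ≤ max (-1) (min 1 (ex A u j)) := le_max_left _ _
    dsimp only at h
    rw [dist_self] at h
    rw [mem_closedBall, dist_comm]
    change dist o (cen o A _) ≤ _
    nlinarith
  have cψ : Continuous fun u => ψ (y u) := hψ.comp_continuous cy my
  have hb : ∀ u (i : X), |(dist i (ψ (y u)) - dist i o) / r| ≤ 1 := fun u i => by
    rw [abs_div, abs_of_pos hr, div_le_one hr, dist_comm i, dist_comm i]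
    exact (abs_dist_sub_le _ _ _).trans (hm _ (my u))
  obtain ⟨u, hu⟩ := Pool.Agent.P.MP_3c7b76_co.brouwer (ι := A)
    (F := fun u i => (dist (i : X) (ψ (y u)) - dist (i : X) o) / r)
    (continuous_pi fun i => ((continuous_const.dist cψ).sub continuous_const).div_const r)
    fun u => (pi_norm_le_iff_of_nonneg zero_le_one).2 fun i => hb u i
  have e : (cen o A fun i => dist i (ψ (y u))) = y u := H.cen_congr hA (c := 0) fun i hi => by
    have h := abs_le.1 (hb u i)
    have e1 : ex A u i = (dist i (ψ (y u)) - dist i o) / r := by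
      rw [ex_mem u hi]; exact (congrFun hu ⟨i, hi⟩).symm
    rw [e1, min_eq_right h.2, max_eq_right h.1]
    field_simp
    ring
  have := hn (ψ (y u)) (by linarith [hm _ (my u)])
  rw [e] at this
  have h2 : dist x (ψ x) ≤ dist (y u) (ψ (y u)) := hmin (my u)
  linarith

theorem onto : ∃ A : Finset X, Fam o r A ∧ ∀ z ∈ ball o (r / 2), ∃ t, cen o A t = z := by
  have hr := H.pos
  have L := H.loc
  have b : ∀ {x : X} {c : ℝ}, c ≤ 9 * r → x ∈ closedBall o c → x ∈ ball o (10 * r) :=
    fun h hx => mem_ball.2 (by linarith [mem_closedBall.1 hx])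
  have mid : ∀ x ∈ closedBall o (2 * r), ∀ z ∈ closedBall o (r / 2),
      Geo x z (1 / 2) (geo x z (1 / 2)) ∧ geo x z (1 / 2) ∈ ball o (10 * r) := fun x hx z hz => by
    have h := L.geo_spec2 (b (by linarith) hx) (b (by linarith) hz) (s := 1 / 2) (by norm_num)
      (by norm_num)
    refine ⟨h, mem_ball.2 ?_⟩
    rw [mem_closedBall] at hx hz
    linarith [h.1, dist_triangle_left (geo x z (1 / 2)) o x, dist_triangle_right x z o]
  set K := closedBall o (4 * r) ×ˢ closedBall o (2 * r) ×ˢ closedBall o (r / 2) with hK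
  have cK : IsCompact K :=
    (isCompact_closedBall _ _).prod ((isCompact_closedBall _ _).prod (isCompact_closedBall _ _))
  have cΘ : ContinuousOn (fun q : X × X × X => geo q.1 (geo q.2.1 q.2.2 (1 / 2)) 2) K :=
    L.continuous_geo (s := fun _ => 2) (by fun_prop) (L.continuous_geo (s := fun _ => 1 / 2)
      (by fun_prop) (by fun_prop) (by fun_prop) fun q hq =>
        ⟨b (by linarith) hq.2.1, b (by linarith) hq.2.2, by norm_num, by norm_num⟩) (by fun_prop)
      fun q hq => ⟨b (by linarith) hq.1, (mid _ hq.2.1 _ hq.2.2).2, by norm_num, le_rfl⟩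
  obtain ⟨δ, δ0, hδ⟩ := uniformContinuousOn_iff.1 (cK.uniformContinuousOn_of_continuous cΘ)
    (r / 2) (by linarith)
  obtain ⟨A, hA, -, hn⟩ := H.net (η := δ / 3) (by linarith)
  refine ⟨A, hA, fun z hz => ?_⟩
  have hz' := ball_subset_closedBall hz
  set Φ : X → X := fun x => cen o A fun i => dist i x with hΦ
  have cΦ : Continuous Φ := (H.continuous_cen hA).comp (by fun_prop)
  have mΦ : ∀ x, Φ x ∈ closedBall o (4 * r) := fun x => hA.mem (hA.cen_spec _)
  obtain ⟨x, hx, e⟩ := H.fix (ψ := fun x => geo (Φ x) (geo x z (1 / 2)) 2)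
    (cΘ.comp (f := fun x => (Φ x, x, z)) (by fun_prop) fun x hx => ⟨mΦ x, hx, hz'⟩) fun x hx => by
      have x4 : x ∈ closedBall o (4 * r) := closedBall_subset_closedBall (by linarith) hx
      have h1 := hδ (Φ x, x, z) ⟨mΦ x, hx, hz'⟩ (x, x, z) ⟨x4, hx, hz'⟩ (by
        rw [Prod.dist_eq, dist_self]
        exact max_lt (by linarith [hn x hx]) δ0)
      obtain ⟨h2, h3⟩ := mid x hx z hz'
      have h4 : geo x (geo x z (1 / 2)) 2 = z := L.geo_unique (b (by linarith) hx) h3
        (L.geo_spec2 (b (by linarith) hx) h3 (by norm_num) le_rfl) ⟨by linarith [h2.1], by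
          rw [dist_comm, h2.2, h2.1]; norm_num⟩
      dsimp only at h1
      rw [h4] at h1
      linarith [dist_triangle (geo (Φ x) (geo x z (1 / 2)) 2) z o, mem_ball.1 hz]
  refine ⟨fun i => dist i x, ?_⟩
  change Φ x = z
  obtain ⟨⟨h1, h2⟩, h3⟩ := mid x hx z hz'
  obtain ⟨h4, h5⟩ := L.geo_spec2 (b (by linarith) (mΦ x)) h3 (s := 2) (by norm_num) le_rfl
  rw [e] at h4 h5
  set m := geo x z (1 / 2)
  norm_num at h2 h5
  rw [dist_comm] at h2 h4 h5
  rw [dist_comm (Φ x)] at h4 h5
  by_cases hxm : x = m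
  · rw [← hxm, dist_self] at h1 h5
    have e1 : x = z := dist_eq_zero.1 (by linarith)
    exact (dist_eq_zero.1 h5.symm).symm.trans e1
  · exact L.uniq x m _ _ hxm (by linarith) (by linarith) (by linarith)

theorem chart_of (hJ : Fam o r J) {V : Set X} (hV : IsOpen V) {p : X} (hp : p ∈ V)
    (h : ∀ x ∈ V, (fun i => dist i x) ∈ W o J ∧ cen o J (fun i => dist i x) = x) :
    ∃ n, ∃ e : OpenPartialHomeomorph X (EuclideanSpace ℝ (Fin n)), p ∈ e.source := by
  classical
  obtain ⟨k, hk⟩ := hJ.1
  have e0 : ∀ x, ∀ i ∈ J, ex (J.erase k) (fun i => dist (i : X) x - dist k x) i =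
      dist i x + -dist k x := fun x i hi => by
    by_cases e : i = k
    · rw [ex_not _ (by simp [e]), e]; ring
    · rw [ex_mem _ (Finset.mem_erase.2 ⟨e, hi⟩)]; ring
  have ce : Continuous fun u => cen o J (ex (J.erase k) u) :=
    (H.continuous_cen hJ).comp (continuous_ex _)
  have li : ∀ x ∈ V, cen o J (ex (J.erase k) fun i => dist (i : X) x - dist k x) = x :=
    fun x hx => (H.cen_congr hJ (e0 x)).trans (h x hx).2
  let e : OpenPartialHomeomorph X (J.erase k → ℝ) :=
    { toFun := fun x i => dist (i : X) x - dist k x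
      invFun := fun u => cen o J (ex (J.erase k) u)
      source := V
      target := ex (J.erase k) ⁻¹' W o J ∩ (fun u => cen o J (ex (J.erase k) u)) ⁻¹' V
      map_source' := fun x hx => ⟨H.W_congr hJ (e0 x) (h x hx).1, by
        rw [mem_preimage, li x hx]; exact hx⟩
      map_target' := fun u hu => hu.2
      left_inv' := li
      right_inv' := fun u hu => by
        obtain ⟨c, hc⟩ := H.active hJ hu.1
        funext i
        rw [hc i (J.erase_subset k i.2), hc k hk, ex_mem u i.2, ex_not u (by simp)]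
        ring
      open_source := hV
      open_target := ((H.isOpen_W hJ).preimage (continuous_ex _)).inter (hV.preimage ce)
      continuousOn_toFun := by fun_prop
      continuousOn_invFun := ce.continuousOn }
  let f : (J.erase k → ℝ) ≃L[ℝ] EuclideanSpace ℝ (Fin (Fintype.card (J.erase k))) :=
    ContinuousLinearEquiv.ofFinrankEq (by simp)
  exact ⟨_, e.transHomeomorph f.toHomeomorph, hp⟩

theorem chart : ∃ n p, ∃ e : OpenPartialHomeomorph X (EuclideanSpace ℝ (Fin n)), p ∈ e.source := by
  classical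
  obtain ⟨A, hA, hs⟩ := H.onto
  set Z : Finset X → Set X := fun K =>
    {x | (fun i => dist i x) ∈ W o K ∧ cen o K (fun i => dist i x) = x} with hZ
  set S : Set (Set X) := insert (ball o (r / 2))ᶜ
    ((fun K => closure (Z K)) '' ↑(A.powerset.filter fun K => K.Nonempty)) with hS
  have hd := dense_sUnion_interior_of_closed (S := S) (fun s hs => by
    rcases hs with rfl | ⟨K, -, rfl⟩
    · exact isOpen_ball.isClosed_compl
    · exact isClosed_closure) (((Finset.finite_toSet _).image _).insert _).countable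
    (eq_univ_of_forall fun x => by
      by_cases hx : x ∈ ball o (r / 2)
      · obtain ⟨t, rfl⟩ := hs x hx
        obtain ⟨K, k1, k2, k3⟩ := H.minimal hA t
        exact ⟨_, Or.inr ⟨K, by simp [k1, k2], rfl⟩, subset_closure k3⟩
      · exact ⟨_, Or.inl rfl, hx⟩)
  obtain ⟨x, hx, hx'⟩ := hd.inter_open_nonempty _ isOpen_ball
    ⟨o, mem_ball_self (by linarith [H.pos] : 0 < r / 2)⟩
  obtain ⟨s, hs, hxs⟩ := mem_iUnion₂.1 hx'
  rcases hs with rfl | ⟨K, hK, rfl⟩
  · exact absurd hx (interior_subset hxs)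
  rw [Finset.mem_coe, Finset.mem_filter, Finset.mem_powerset] at hK
  have hF := hA.sub hK.1 hK.2
  have cF : Continuous fun x : X => fun i : X => dist i x := by fun_prop
  obtain ⟨p, p1, p2⟩ := mem_closure_iff.1 (interior_subset hxs) _ isOpen_interior hxs
  obtain ⟨n, e, he⟩ := H.chart_of hF (isOpen_interior.inter ((H.isOpen_W hF).preimage cF))
    (p := p) ⟨p1, p2.1⟩ fun x hx => ⟨hx.2, closure_minimal (fun x hx => hx.2)
      (isClosed_eq ((H.continuous_cen hF).comp cF) continuous_id) (interior_subset hx.1)⟩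
  exact ⟨n, p, e, he⟩

end Hyp

end Pool.Agent.P.MP_07c576_gt.Bn
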